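import Mathlib

/-!
# Rows FLOOR and AVG of the board zu

`FLOOR`: the floors of the coefficients after division by `2 ^ e`; `AVG`: the circle average of a
positive trigonometric polynomial, and of its logarithm.
-/

set_option autoImplicit false

namespace Pool.H2.ZU

/-- the floor step -/
theorem stepr (n : ℕ) (r q : Fin n → ℤ) (e d : ℕ)
    (h : ∀ j, 2 ^ e * q j ≤ r j ∧ r j < 2 ^ e * (q j + 1)) (z : ℂ) (hz : ‖z‖ = 1) :
    ((z⁻¹) ^ d * (∑ j, (r j : ℂ) * z ^ (j : ℕ))).re ≤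
      2 ^ e * (((z⁻¹) ^ d * (∑ j, (q j : ℂ) * z ^ (j : ℕ))).re + n) := by
  have key : (z⁻¹) ^ d * (∑ j, (r j : ℂ) * z ^ (j : ℕ)) =
      ((2 ^ e : ℝ) : ℂ) * ((z⁻¹) ^ d * (∑ j, (q j : ℂ) * z ^ (j : ℕ))) +
        (z⁻¹) ^ d * (∑ j, ((r j - 2 ^ e * q j : ℤ) : ℂ) * z ^ (j : ℕ)) := by
    rw [mul_left_comm, ← mul_add]
    congr 1
    rw [Finset.mul_sum, ← Finset.sum_add_distrib]
    refine Finset.sum_congr rfl fun j _ => ?_
    push_cast
    ring
  have hb : ‖(z⁻¹) ^ d * (∑ j, ((r j - 2 ^ e * q j : ℤ) : ℂ) * z ^ (j : ℕ))‖ ≤ n * 2 ^ e := by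
    rw [norm_mul, norm_pow, norm_inv, hz, inv_one, one_pow, one_mul]
    refine (norm_sum_le _ _).trans ?_
    have h1 : ∀ j ∈ (Finset.univ : Finset (Fin n)),
        ‖((r j - 2 ^ e * q j : ℤ) : ℂ) * z ^ (j : ℕ)‖ ≤ (2 : ℝ) ^ e := by
      intro j _
      rw [norm_mul, norm_pow, hz, one_pow, mul_one, Complex.norm_intCast]
      obtain ⟨h1, h2⟩ := h j
      have h3 : ((r j - 2 ^ e * q j : ℤ) : ℝ) ≤ (2 : ℝ) ^ e := by
        have : r j - 2 ^ e * q j ≤ 2 ^ e := by linarith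
        calc ((r j - 2 ^ e * q j : ℤ) : ℝ) ≤ ((2 ^ e : ℤ) : ℝ) := by exact_mod_cast this
          _ = (2 : ℝ) ^ e := by push_cast; ring
      have h4 : (0 : ℝ) ≤ ((r j - 2 ^ e * q j : ℤ) : ℝ) := by
        exact_mod_cast (by linarith : (0 : ℤ) ≤ r j - 2 ^ e * q j)
      rw [abs_of_nonneg h4]
      exact h3
    refine (Finset.sum_le_sum h1).trans ?_
    simp
  rw [key, Complex.add_re, Complex.re_ofReal_mul]
  have := (Complex.re_le_norm _).trans hb
  linarith

/-- the circle average of a power of `z`, with a negative exponent allowed -/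
private lemma avg_pow (j d : ℕ) :
    Real.circleAverage (fun z : ℂ => (z⁻¹) ^ d * z ^ j) 0 1 = if j = d then 1 else 0 := by
  rw [Real.circleAverage_eq_circleIntegral one_ne_zero]
  have h0 : ∀ z ∈ Metric.sphere (0 : ℂ) 1, (z - 0)⁻¹ • ((z⁻¹) ^ d * z ^ j) =
      (z - 0) ^ ((j : ℤ) - d - 1) := by
    intro z hz
    have hz0 : z ≠ 0 := by
      rintro rfl
      simp at hz
    rw [sub_zero, smul_eq_mul, zpow_sub₀ hz0, zpow_sub₀ hz0, zpow_one, zpow_natCast,
      zpow_natCast, inv_pow]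
    field_simp
  rw [circleIntegral.integral_congr zero_le_one h0]
  split_ifs with hjd
  · subst hjd
    have : ∀ z : ℂ, (z - 0) ^ ((j : ℤ) - j - 1) = (z - 0)⁻¹ := by
      intro z
      rw [sub_self, zero_sub, zpow_neg_one]
    simp only [this]
    rw [circleIntegral.integral_sub_center_inv 0 one_ne_zero, smul_eq_mul]
    refine inv_mul_cancel₀ ?_
    simp [Real.pi_ne_zero]
  · rw [circleIntegral.integral_sub_zpow_of_ne, smul_zero]
    intro h
    apply hjd
    omega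

/-- continuity of the trigonometric polynomial on the circle -/
private lemma cont {n : ℕ} (r : Fin n → ℤ) (d : ℕ) :
    ContinuousOn (fun z : ℂ => (z⁻¹) ^ d * (∑ j, (r j : ℂ) * z ^ (j : ℕ)))
      (Metric.sphere 0 |1|) := by
  refine ContinuousOn.mul (ContinuousOn.pow (ContinuousOn.inv₀ continuousOn_id ?_) d) ?_
  · intro z hz h
    simp only [id] at h
    subst h
    simp at hz
  · fun_prop

/-- the mean of the real part is the middle coefficient -/
theorem avg (n : ℕ) (r : Fin n → ℤ) (d : Fin n) :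
    Real.circleAverage (fun z : ℂ => ((z⁻¹) ^ (d : ℕ) *
      (∑ j, (r j : ℂ) * z ^ (j : ℕ))).re) 0 1 = r d := by
  have h1 := ContinuousLinearMap.circleAverage_comp_comm (c := 0) (R := 1) Complex.reCLM
    (f := fun z : ℂ => (z⁻¹) ^ (d : ℕ) * (∑ j, (r j : ℂ) * z ^ (j : ℕ)))
    (ContinuousOn.circleIntegrable' (cont r d))
  have h2 : Real.circleAverage (fun z : ℂ => (z⁻¹) ^ (d : ℕ) *
      (∑ j, (r j : ℂ) * z ^ (j : ℕ))) 0 1 = r d := by
    have e1 : (fun z : ℂ => (z⁻¹) ^ (d : ℕ) * (∑ j, (r j : ℂ) * z ^ (j : ℕ))) =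
        fun z => ∑ j, (r j : ℂ) • ((z⁻¹) ^ (d : ℕ) * z ^ (j : ℕ)) := by
      funext z
      rw [Finset.mul_sum]
      refine Finset.sum_congr rfl fun j _ => ?_
      rw [smul_eq_mul]
      ring
    rw [e1, Real.circleAverage_fun_sum]
    · simp only [Real.circleAverage_fun_smul, avg_pow]
      simp [Fin.val_inj]
    · intro j _
      refine ContinuousOn.circleIntegrable' ?_
      have h5 := cont (fun i : Fin n => if i = j then 1 else 0) (d : ℕ)
      have h6 : ContinuousOn (fun z : ℂ => (z⁻¹) ^ (d : ℕ) * z ^ (j : ℕ))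
          (Metric.sphere 0 |1|) := by
        simpa using h5
      exact h6.const_smul (r j : ℂ)
  have h3 : (fun z : ℂ => ((z⁻¹) ^ (d : ℕ) * (∑ j, (r j : ℂ) * z ^ (j : ℕ))).re) =
      (Complex.reCLM ∘ fun z : ℂ => (z⁻¹) ^ (d : ℕ) * (∑ j, (r j : ℂ) * z ^ (j : ℕ))) := rfl
  rw [h3, h1, h2]
  simp

/-- Jensen's inequality for the logarithm -/
theorem avg_log (n : ℕ) (r : Fin n → ℤ) (d : Fin n)
    (hp : ∀ z : ℂ, ‖z‖ = 1 → 0 < ((z⁻¹) ^ (d : ℕ) * (∑ j, (r j : ℂ) * z ^ (j : ℕ))).re) :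
    0 < r d ∧ Real.circleAverage (fun z : ℂ => Real.log (((z⁻¹) ^ (d : ℕ) *
      (∑ j, (r j : ℂ) * z ^ (j : ℕ))).re)) 0 1 ≤ Real.log (r d) := by
  set T : ℂ → ℝ := fun z => ((z⁻¹) ^ (d : ℕ) * (∑ j, (r j : ℂ) * z ^ (j : ℕ))).re with hT
  have hTc : ContinuousOn T (Metric.sphere 0 |1|) :=
    Complex.continuous_re.comp_continuousOn (cont r d)
  have hpos : ∀ z ∈ Metric.sphere (0 : ℂ) |1|, 0 < T z := by
    intro z hz
    exact hp z (by simpa using hz)
  have hav : Real.circleAverage T 0 1 = r d := avg n r d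
  have hTi : CircleIntegrable T 0 1 := ContinuousOn.circleIntegrable' hTc
  -- the minimum of `T`
  obtain ⟨w, hw, hmin⟩ := (isCompact_sphere (0 : ℂ) |1|).exists_isMinOn
    ⟨1, by simp⟩ hTc
  have hc : 0 < (r d : ℝ) := by
    rw [← hav]
    refine (hpos w hw).trans_le ?_
    rw [← Real.circleAverage_const (T w) 0 1]
    exact Real.circleAverage_mono (circleIntegrable_const _ _ _) hTi fun z hz => hmin hz
  refine ⟨by exact_mod_cast hc, ?_⟩
  have hl : ∀ z ∈ Metric.sphere (0 : ℂ) |1|, Real.log (T z) ≤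
      Real.log (r d) - 1 + ((r d : ℝ)⁻¹) • T z := by
    intro z hz
    have h1 := Real.log_le_sub_one_of_pos (div_pos (hpos z hz) hc)
    rw [Real.log_div (hpos z hz).ne' hc.ne'] at h1
    rw [smul_eq_mul, inv_mul_eq_div]
    linarith
  have hli : CircleIntegrable (fun z => Real.log (T z)) 0 1 :=
    ContinuousOn.circleIntegrable' (hTc.log fun z hz => (hpos z hz).ne')
  have hri : CircleIntegrable (fun z => ((r d : ℝ)⁻¹) • T z) 0 1 :=
    ContinuousOn.circleIntegrable' (hTc.const_smul ((r d : ℝ)⁻¹))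
  refine (Real.circleAverage_mono hli
    ((circleIntegrable_const (Real.log (r d) - 1) 0 1).add hri) hl).trans ?_
  have := Real.circleAverage_fun_add (circleIntegrable_const (Real.log (r d) - 1) 0 1) hri
  have e2 : Real.circleAverage ((fun _ => Real.log (r d : ℝ) - 1) +
      fun z => ((r d : ℝ)⁻¹) • T z) 0 1 = Real.log (r d) := by
    rw [Real.circleAverage_add (circleIntegrable_const (Real.log (r d) - 1) 0 1) hri,
      Real.circleAverage_const, Real.circleAverage_fun_smul, hav, smul_eq_mul,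
      inv_mul_cancel₀ hc.ne']
    ring
  exact e2.le

end Pool.H2.ZU
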