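import Pool.Agent.H1.ZU.Def
import Pool.Agent.H1.ZU.Ker

/-!
# Row GD of the board zu: the data of the auxiliary polynomial

A list `l` of integers and a scale `Q`: the polynomial `G = l / Q` satisfies the hypotheses of
the covering theorem, by a check of the leading coefficient, of the values at `0` and `1` and of
the remainder modulo `N10`.
-/

set_option autoImplicit false

open Polynomial

namespace Pool.H2.ZU

open Pool.H1.ZU

/-- evaluate an integer before use -/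
def forceZ {A : Type} (x : ℤ) (k : ℤ → A) : A :=
  match x with
  | Int.ofNat n => forceN n (fun m => k (Int.ofNat m))
  | Int.negSucc n => forceN n (fun m => k (Int.negSucc m))

theorem forceZ_eq {A : Type} (x : ℤ) (k : ℤ → A) : forceZ x k = k x := by
  cases x <;> simp only [forceZ, forceN_eq]

/-- remainder modulo `N10`, with a continuation -/
def r4 : List ℤ → (ℤ → ℤ → ℤ → ℤ → Bool) → Bool
  | [], k => k (Int.ofNat 0) (Int.ofNat 0) (Int.ofNat 0) (Int.ofNat 0)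
  | a :: l, k => r4 l (fun p q r s =>
      forceZ (Int.sub a s) (fun p' =>
      forceZ (Int.add p (Int.mul (Int.ofNat 3) s)) (fun q' =>
      forceZ (Int.sub q (Int.mul (Int.ofNat 4) s)) (fun r' =>
      forceZ (Int.add r (Int.mul (Int.ofNat 2) s)) (fun s' => k p' q' r' s')))))

theorem r4_spec : ∀ (l : List ℤ) (k : ℤ → ℤ → ℤ → ℤ → Bool), r4 l k = true →
    ∃ p q r s : ℤ, k p q r s = true ∧ ∀ x : ℂ, x ^ 4 = 2 * x ^ 3 - 4 * x ^ 2 + 3 * x - 1 →
      evL l x = p + q * x + r * x ^ 2 + s * x ^ 3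
  | [], k, h => ⟨0, 0, 0, 0, h, fun x _ => by simp⟩
  | a :: l, k, h => by
    rw [r4] at h
    obtain ⟨p, q, r, s, h1, h2⟩ := r4_spec l _ h
    rw [forceZ_eq, forceZ_eq, forceZ_eq, forceZ_eq] at h1
    refine ⟨_, _, _, _, h1, fun x hx => ?_⟩
    rw [evL_cons, h2 x hx]
    have e1 : Int.sub a s = a - s := rfl
    have e2 : Int.add p (Int.mul (Int.ofNat 3) s) = p + 3 * s := rfl
    have e3 : Int.sub q (Int.mul (Int.ofNat 4) s) = q - 4 * s := rfl
    have e4 : Int.add r (Int.mul (Int.ofNat 2) s) = r + 2 * s := rfl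
    rw [e1, e2, e3, e4]
    push_cast
    linear_combination (s : ℂ) * hx

/-- rational part of `α ^ 2 + α β + y β ^ 2`, `α = p - u y`, `β = b - s y` -/
def v0f (p u b s : ℤ) : ℤ :=
  Int.add (Int.add (Int.sub (Int.mul p p) (Int.mul u u)) (Int.sub (Int.mul p b) (Int.mul u s)))
    (Int.sub (Int.mul (Int.ofNat 2) (Int.mul b s)) (Int.mul (Int.ofNat 3) (Int.mul s s)))

/-- coefficient of `y` -/
def v1f (p u b s : ℤ) : ℤ :=
  Int.add (Int.add
    (Int.sub (Int.mul (Int.ofNat 3) (Int.mul u u)) (Int.mul (Int.ofNat 2) (Int.mul p u)))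
    (Int.sub (Int.sub (Int.mul (Int.ofNat 3) (Int.mul u s)) (Int.mul p s)) (Int.mul u b)))
    (Int.add (Int.sub (Int.mul b b) (Int.mul (Int.ofNat 6) (Int.mul b s)))
      (Int.mul (Int.ofNat 8) (Int.mul s s)))

/-- the norm of `v + w y` -/
def nf (v w : ℤ) : ℤ :=
  Int.add (Int.add (Int.mul v v) (Int.mul (Int.ofNat 3) (Int.mul v w))) (Int.mul w w)

theorem v0f_eq (p u b s : ℤ) :
    v0f p u b s = p ^ 2 - u ^ 2 + p * b - u * s + 2 * b * s - 3 * s ^ 2 := by
  change p * p - u * u + (p * b - u * s) + (2 * (b * s) - 3 * (s * s)) = _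
  ring

theorem v1f_eq (p u b s : ℤ) : v1f p u b s =
    3 * u ^ 2 - 2 * p * u + 3 * u * s - p * s - u * b + b ^ 2 - 6 * b * s + 8 * s ^ 2 := by
  change 3 * (u * u) - 2 * (p * u) + (3 * (u * s) - p * s - u * b) +
    (b * b - 6 * (b * s) + 8 * (s * s)) = _
  ring

theorem nf_eq (v w : ℤ) : nf v w = v ^ 2 + 3 * v * w + w ^ 2 := by
  change v * v + 3 * (v * w) + w * w = _
  ring

/-- comparison -/
def leB (m : ℕ) (N : ℤ) : Bool :=
  match N with
  | Int.ofNat n => Nat.ble m n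
  | Int.negSucc _ => false

theorem leB_spec (m : ℕ) (N : ℤ) (h : leB m N = true) : (m : ℤ) ≤ N := by
  cases N with
  | ofNat n =>
    have h1 := Nat.le_of_ble_eq_true h
    exact Int.ofNat_le.2 h1
  | negSucc n => simp [leB] at h

/-- the check at the roots of `N10` -/
def c10 (Q : ℕ) (l : List ℤ) : Bool :=
  r4 l (fun p q r s =>
    forceZ (Int.add r s) (fun u =>
    forceZ (Int.add q u) (fun b =>
    forceZ (v0f p u b s) (fun v =>
    forceZ (v1f p u b s) (fun w =>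
    forceZ (nf v w) (fun N =>
    forceN (Nat.mul Q Q) (fun Q2 => leB (Nat.mul Q2 Q2) N)))))))

theorem c10_spec (Q : ℕ) (l : List ℤ) (h : c10 Q l = true) : ∃ p q r s : ℤ,
    (∀ x : ℂ, x ^ 4 = 2 * x ^ 3 - 4 * x ^ 2 + 3 * x - 1 →
      evL l x = p + q * x + r * x ^ 2 + s * x ^ 3) ∧
      (Q : ℤ) ^ 4 ≤ nf (v0f p (r + s) (q + (r + s)) s) (v1f p (r + s) (q + (r + s)) s) := by
  obtain ⟨p, q, r, s, h1, h2⟩ := r4_spec l _ h
  simp only [forceZ_eq, forceN_eq] at h1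
  refine ⟨p, q, r, s, h2, ?_⟩
  have h3 := leB_spec _ _ h1
  have e : ((Nat.mul (Nat.mul Q Q) (Nat.mul Q Q) : ℕ) : ℤ) = (Q : ℤ) ^ 4 := by
    change (((Q * Q) * (Q * Q) : ℕ) : ℤ) = _
    push_cast
    ring
  rw [e] at h3
  exact h3

/-! ## Values at the roots of `N10` -/

/-- at `t = 1/2 + i sqrt (y - 1/4)` with `y ^ 2 = 3 y - 1` -/
private lemma val (y : ℝ) (hy : 1 / 4 ≤ y) (hy2 : y ^ 2 = 3 * y - 1) (p q r s : ℤ) :
    let t : ℂ := ⟨1 / 2, Real.sqrt (y - 1 / 4)⟩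
    t ^ 4 = 2 * t ^ 3 - 4 * t ^ 2 + 3 * t - 1 ∧
      ‖(p : ℂ) + q * t + r * t ^ 2 + s * t ^ 3‖ ^ 2 =
        v0f p (r + s) (q + (r + s)) s + v1f p (r + s) (q + (r + s)) s * y := by
  intro t
  have hs := Real.mul_self_sqrt (show 0 ≤ y - 1 / 4 by linarith)
  have ht : t ^ 2 = t - (y : ℂ) := by
    apply Complex.ext
    · simp [t, pow_two]
      linarith
    · simp [t, pow_two]
      ring
  have hyc : ((y : ℝ) : ℂ) ^ 2 = 3 * (y : ℂ) - 1 := by exact_mod_cast hy2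
  constructor
  · linear_combination (t ^ 2 - t - (y : ℂ) + 3) * ht + hyc
  · have e1 : (p : ℂ) + q * t + r * t ^ 2 + s * t ^ 3 =
        ((p - y * (r + s) : ℝ) : ℂ) + ((q + r + s - y * s : ℝ) : ℂ) * t := by
      push_cast
      linear_combination ((r : ℂ) + s * t + s) * ht
    rw [e1, ← Complex.normSq_eq_norm_sq, Complex.normSq_apply]
    have e2 : (((p - y * (r + s) : ℝ) : ℂ) + ((q + r + s - y * s : ℝ) : ℂ) * t).re =
        (p - y * (r + s)) + (q + r + s - y * s) * (1 / 2) := by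
      rw [Complex.add_re, Complex.ofReal_re, Complex.re_ofReal_mul]
    have e3 : (((p - y * (r + s) : ℝ) : ℂ) + ((q + r + s - y * s : ℝ) : ℂ) * t).im =
        (q + r + s - y * s) * Real.sqrt (y - 1 / 4) := by
      rw [Complex.add_im, Complex.ofReal_im, Complex.im_ofReal_mul, zero_add]
    rw [e2, e3, v0f_eq, v1f_eq]
    push_cast
    linear_combination (q + r + s - y * s : ℝ) ^ 2 * hs +
      ((r : ℝ) ^ 2 + r * s - 2 * s * q + s ^ 2 * (y + 3)) * hy2

private lemma s5 : Real.sqrt 5 * Real.sqrt 5 = 5 := Real.mul_self_sqrt (by norm_num)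

private lemma s5lo : (2 : ℝ) < Real.sqrt 5 := by
  rw [Real.lt_sqrt (by norm_num)]
  norm_num

private lemma s5hi : Real.sqrt 5 < 5 / 2 := by
  rw [Real.sqrt_lt' (by norm_num)]
  norm_num

/-- the values of `l` at `b1` and `b3` -/
theorem c10_val (Q : ℕ) (l : List ℤ) (h : c10 Q l = true) :
    (Q : ℝ) ^ 2 ≤ ‖evL l b1‖ * ‖evL l b3‖ := by
  obtain ⟨p, q, r, s, h1, h2⟩ := c10_spec Q l h
  have hy1 : y1 ^ 2 = 3 * y1 - 1 := by unfold y1; nlinarith [s5]
  have hy3 : y3 ^ 2 = 3 * y3 - 1 := by unfold y3; nlinarith [s5]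
  have g1 : 1 / 4 ≤ y1 := by unfold y1; linarith [s5hi]
  have g3 : 1 / 4 ≤ y3 := by unfold y3; linarith [s5lo]
  obtain ⟨a1, a2⟩ := val y1 g1 hy1 p q r s
  obtain ⟨c1, c2⟩ := val y3 g3 hy3 p q r s
  have ysum : y1 + y3 = 3 := by unfold y1 y3; ring
  have ymul : y1 * y3 = 1 := by unfold y1 y3; nlinarith [s5]
  have k1 : ‖evL l b1‖ ^ 2 = v0f p (r + s) (q + (r + s)) s +
      v1f p (r + s) (q + (r + s)) s * y1 := by
    rw [h1 b1 a1]
    exact a2
  have k3 : ‖evL l b3‖ ^ 2 = v0f p (r + s) (q + (r + s)) s +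
      v1f p (r + s) (q + (r + s)) s * y3 := by
    rw [h1 b3 c1]
    exact c2
  have k5 : (Q : ℝ) ^ 4 ≤ (‖evL l b1‖ * ‖evL l b3‖) ^ 2 := by
    rw [mul_pow, k1, k3]
    have k6 : ((Q : ℤ) : ℝ) ^ 4 ≤
        ((nf (v0f p (r + s) (q + (r + s)) s) (v1f p (r + s) (q + (r + s)) s) : ℤ) : ℝ) := by
      exact_mod_cast h2
    rw [nf_eq] at k6
    push_cast at k6
    refine k6.trans (le_of_eq ?_)
    linear_combination (-(v0f p (r + s) (q + (r + s)) s : ℝ) *
      (v1f p (r + s) (q + (r + s)) s : ℝ)) * ysum -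
      (v1f p (r + s) (q + (r + s)) s : ℝ) ^ 2 * ymul
  have k7 : ((Q : ℝ) ^ 2) ^ 2 ≤ (‖evL l b1‖ * ‖evL l b3‖) ^ 2 := by
    rw [← pow_mul]
    exact k5
  exact le_of_sq_le_sq k7 (by positivity)

/-! ## Lists as polynomials -/

theorem map_evL {R S : Type*} [CommRing R] [CommRing S] (f : R →+* S) (x : R) :
    ∀ l : List ℤ, f (evL l x) = evL l (f x)
  | [] => by simp
  | a :: l => by rw [evL_cons, evL_cons, map_add, map_mul, map_evL f x l, map_intCast]

theorem coeff_evL : ∀ (l : List ℤ) (i : ℕ), (evL l (X : ℤ[X])).coeff i = l.getD i 0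
  | [], i => by simp
  | a :: l, 0 => by simp
  | a :: l, i + 1 => by
    rw [evL_cons, coeff_add, coeff_X_mul, coeff_evL l i]
    have h : ((a : ℤ) : ℤ[X]).coeff (i + 1) = 0 := by
      rw [← C_eq_intCast, coeff_C_succ]
    rw [h]
    simp

/-- the polynomial -/
noncomputable def gp (Q : ℕ) (l : List ℤ) : ℝ[X] :=
  C (1 / Q : ℝ) * ((evL l (X : ℤ[X])).map (Int.castRingHom ℝ))

theorem aeval_gp (Q : ℕ) (l : List ℤ) (z : ℂ) : aeval z (gp Q l) = evL l z / Q := by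
  have h := map_evL (((aeval z : ℝ[X] →ₐ[ℝ] ℂ) : ℝ[X] →+* ℂ).comp
    (mapRingHom (Int.castRingHom ℝ))) X l
  simp only [RingHom.comp_apply, coe_mapRingHom, map_X] at h
  rw [gp, map_mul, aeval_C]
  have h2 : (aeval z) (map (Int.castRingHom ℝ) (evL l X)) = evL l z := by
    refine Eq.trans h ?_
    simp
  rw [h2]
  simp
  ring

theorem ev_gp (Q : ℕ) (l : List ℤ) (z : ℂ) : ev (gp Q l) z = evL l (z - z ^ 2) / Q :=
  aeval_gp Q l _

theorem eval_gp (Q : ℕ) (l : List ℤ) (x : ℝ) : (gp Q l).eval x = evL l x / Q := by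
  have h := map_evL ((evalRingHom x).comp (mapRingHom (Int.castRingHom ℝ))) X l
  simp only [RingHom.comp_apply, coe_mapRingHom, map_X, coe_evalRingHom, eval_X] at h
  rw [gp, eval_mul, eval_C, h]
  ring

theorem coeff_gp (Q : ℕ) (l : List ℤ) (i : ℕ) : (gp Q l).coeff i = l.getD i 0 / Q := by
  rw [gp, coeff_C_mul, coeff_map, coeff_evL]
  simp
  ring

/-- row GD -/
theorem gd (l : List ℤ) (k Q : ℕ) (hQ : 0 < Q) (hl : l.length = k + 1)
    (h1 : (Q : ℤ) ≤ |l.getLastD 0|) (h2 : (Q : ℤ) ≤ |l.headD 0|) (h3 : (Q : ℤ) ≤ |evL l 1|)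
    (h4 : c10 Q l = true) :
    (gp Q l).natDegree = k ∧ 1 ≤ |(gp Q l).leadingCoeff| ∧ 1 ≤ |(gp Q l).eval 0| ∧
      1 ≤ |(gp Q l).eval 1| ∧ 1 ≤ ‖aeval b1 (gp Q l)‖ * ‖aeval b3 (gp Q l)‖ ∧
      ∀ z : ℂ, ev (gp Q l) z = evL l (z - z ^ 2) / Q := by
  have hQ' : (0 : ℝ) < Q := by exact_mod_cast hQ
  have hQZ : (0 : ℤ) < Q := by exact_mod_cast hQ
  have hne : l ≠ [] := by
    rintro rfl
    simp at hl
  have hlast : l.getD k 0 = l.getLastD 0 := by
    rw [List.getLastD_eq_getLast?, List.getLast?_eq_getElem?, List.getD_eq_getElem?_getD, hl]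
    simp
  have hk : (gp Q l).coeff k = (l.getLastD 0 : ℤ) / Q := by rw [coeff_gp, hlast]
  have one_le : ∀ m : ℤ, (Q : ℤ) ≤ |m| → 1 ≤ |(m : ℝ) / Q| := by
    intro m hm
    rw [abs_div, abs_of_pos hQ', le_div_iff₀ hQ', one_mul]
    exact_mod_cast hm
  have hdeg : (gp Q l).natDegree = k := by
    refine le_antisymm ?_ ?_
    · rw [natDegree_le_iff_coeff_eq_zero]
      intro i hi
      rw [coeff_gp, List.getD_eq_default _ _ (by omega)]
      simp
    · apply le_natDegree_of_ne_zero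
      rw [hk]
      have := one_le _ h1
      intro h0
      rw [h0, abs_zero] at this
      linarith
  refine ⟨hdeg, ?_, ?_, ?_, ?_, ev_gp Q l⟩
  · rw [leadingCoeff, hdeg, hk]
    exact one_le _ h1
  · have e : evL l (0 : ℝ) = (l.headD 0 : ℤ) := by
      cases l with
      | nil => simp
      | cons a l => simp
    rw [eval_gp, e]
    exact one_le _ h2
  · have e : evL l (1 : ℝ) = (evL l (1 : ℤ) : ℤ) := by
      have := map_evL (Int.castRingHom ℝ) 1 l
      simpa using this.symm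
    rw [eval_gp, e]
    exact one_le _ h3
  · rw [aeval_gp, aeval_gp, norm_div, norm_div, Complex.norm_natCast, div_mul_div_comm,
      le_div_iff₀ (by positivity), one_mul, ← pow_two]
    exact c10_val Q l h4

end Pool.H2.ZU
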