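import Pool.Agent.H1.ZU.Def

/-!
# Module RES of the board zu: residues modulo `N10` with the unit `t`
-/

set_option autoImplicit false

open Polynomial

namespace Pool.H2.ZU

open Pool.H1.ZU

private lemma s5 : Real.sqrt 5 * Real.sqrt 5 = 5 := Real.mul_self_sqrt (by norm_num)

private lemma s5lo : (2 : ℝ) < Real.sqrt 5 := by
  rw [Real.lt_sqrt (by norm_num)]
  norm_num

private lemma s5hi : Real.sqrt 5 < 5 / 2 := by
  rw [Real.sqrt_lt' (by norm_num)]
  norm_num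

private lemma y_sum : y1 + y3 = 3 := by
  unfold y1 y3
  ring

private lemma y_mul : y1 * y3 = 1 := by
  unfold y1 y3
  nlinarith [s5]

private lemma y1_lo : 1 / 4 < y1 := by
  unfold y1
  linarith [s5hi]

private lemma y1_hi : y1 < 1 := by
  unfold y1
  linarith [s5lo]

private lemma y3_lo : 2 < y3 := by
  unfold y3
  linarith [s5lo]

private lemma y3_hi : y3 < 3 := by
  unfold y3
  linarith [s5hi]

private lemma s1pos : 0 < Real.sqrt (y1 - 1 / 4) := Real.sqrt_pos.2 (by linarith [y1_lo])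

private lemma s3pos : 0 < Real.sqrt (y3 - 1 / 4) := Real.sqrt_pos.2 (by linarith [y3_lo])

private lemma quad (y : ℝ) (hy : 1 / 4 < y) :
    (⟨1 / 2, Real.sqrt (y - 1 / 4)⟩ : ℂ) ^ 2 - ⟨1 / 2, Real.sqrt (y - 1 / 4)⟩ + (y : ℂ) = 0 := by
  have h := Real.mul_self_sqrt (show 0 ≤ y - 1 / 4 by linarith)
  apply Complex.ext
  · simp [pow_two]
    linarith
  · simp [pow_two]
    ring

private lemma normb (y : ℝ) (hy : 1 / 4 < y) :
    ‖(⟨1 / 2, Real.sqrt (y - 1 / 4)⟩ : ℂ)‖ ^ 2 = y := by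
  have h := Real.mul_self_sqrt (show 0 ≤ y - 1 / 4 by linarith)
  rw [← Complex.normSq_eq_norm_sq, Complex.normSq_mk]
  linarith

private lemma b1quad : b1 ^ 2 - b1 + (y1 : ℂ) = 0 := quad y1 y1_lo

private lemma b3quad : b3 ^ 2 - b3 + (y3 : ℂ) = 0 := quad y3 (by linarith [y3_lo])

private lemma b1norm : ‖b1‖ ^ 2 = y1 := normb y1 y1_lo

private lemma b3norm : ‖b3‖ ^ 2 = y3 := normb y3 (by linarith [y3_lo])

/-- the quadratic factors -/
noncomputable def qq (y : ℝ) : ℝ[X] := X ^ 2 - X + C y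

private lemma N10_eq : ri N10 = qq y1 * qq y3 := by
  have h1 : (C y1 * C y3 : ℝ[X]) = 1 := by rw [← C_mul, y_mul, C_1]
  have h2 : (C y1 + C y3 : ℝ[X]) = 3 := by rw [← C_add, y_sum]; rfl
  have h3 : ri N10 = X ^ 4 - 2 * X ^ 3 + 4 * X ^ 2 - 3 * X + 1 := by
    unfold ri N10
    simp
  rw [h3]
  unfold qq
  linear_combination (-1 : ℝ[X]) * h1 - (X ^ 2 - X) * h2

private lemma qq_b1 (y : ℝ) : aeval b1 (qq y) = ((y - y1 : ℝ) : ℂ) := by
  unfold qq
  simp only [map_add, map_sub, map_pow, aeval_X, aeval_C, Complex.coe_algebraMap,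
    Complex.ofReal_sub]
  linear_combination b1quad

private lemma qq_b3 (y : ℝ) : aeval b3 (qq y) = ((y - y3 : ℝ) : ℂ) := by
  unfold qq
  simp only [map_add, map_sub, map_pow, aeval_X, aeval_C, Complex.coe_algebraMap,
    Complex.ofReal_sub]
  linear_combination b3quad

private lemma qq_deg (y : ℝ) : (qq y).natDegree = 2 := by
  unfold qq
  compute_degree!

private lemma qq_monic (y : ℝ) : (qq y).Monic := by
  unfold qq
  monicity!

/-- a real polynomial which vanishes at the non-real point `b` is divisible by its quadratic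
factor -/
private lemma qq_dvd (y s : ℝ) (hs : s ≠ 0) (P : ℝ[X]) (h0 : aeval (⟨1 / 2, s⟩ : ℂ) (qq y) = 0)
    (h : aeval (⟨1 / 2, s⟩ : ℂ) P = 0) : qq y ∣ P := by
  have h1 := modByMonic_add_div P (qq y)
  have h2 : aeval (⟨1 / 2, s⟩ : ℂ) (P %ₘ qq y) = 0 := by
    rw [← h1, map_add, map_mul, h0, zero_mul, add_zero] at h
    exact h
  have h3 : (P %ₘ qq y).natDegree < 2 := by
    have := natDegree_modByMonic_lt P (qq_monic y) (by
      intro h4
      have h5 := qq_deg y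
      rw [h4] at h5
      simp at h5)
    rwa [qq_deg] at this
  have h4 : P %ₘ qq y = C ((P %ₘ qq y).coeff 1) * X + C ((P %ₘ qq y).coeff 0) :=
    eq_X_add_C_of_natDegree_le_one (by omega)
  set α := (P %ₘ qq y).coeff 1 with hα
  set β := (P %ₘ qq y).coeff 0 with hβ
  rw [h4] at h2
  simp only [map_add, map_mul, aeval_X, aeval_C, Complex.coe_algebraMap] at h2
  have h5 := congrArg Complex.im h2
  have h6 := congrArg Complex.re h2
  simp at h5 h6
  have h7 : α = 0 := by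
    rcases h5 with h5 | h5
    · exact h5
    · exact absurd h5 hs
  rw [h7] at h6
  simp at h6
  rw [← modByMonic_eq_zero_iff_dvd (qq_monic y), h4, h7, h6]
  simp

private lemma N10_dvd (P : ℝ[X]) (h1 : aeval b1 P = 0) (h3 : aeval b3 P = 0) : ri N10 ∣ P := by
  rw [N10_eq]
  have hc : IsCoprime (qq y1) (qq y3) := by
    have hne : y3 - y1 ≠ 0 := by
      have := y1_hi
      have := y3_lo
      linarith
    refine ⟨-C (y3 - y1)⁻¹, C (y3 - y1)⁻¹, ?_⟩
    have h : (C (y3 - y1)⁻¹ * C (y3 - y1) : ℝ[X]) = 1 := by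
      rw [← C_mul, inv_mul_cancel₀ hne, C_1]
    unfold qq
    rw [C_sub] at h
    linear_combination h
  refine hc.mul_dvd ?_ ?_
  · refine qq_dvd y1 _ s1pos.ne' P ?_ h1
    have := qq_b1 y1
    rw [sub_self] at this
    exact_mod_cast this
  · refine qq_dvd y3 _ s3pos.ne' P ?_ h3
    have := qq_b3 y3
    rw [sub_self] at this
    exact_mod_cast this

/-! ### interpolation -/

/-- real linear polynomial with a given value at `⟨1/2, s⟩` -/
noncomputable def lin (s : ℝ) (v : ℂ) : ℝ[X] := C (v.re - v.im / s / 2) + C (v.im / s) * X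

private lemma lin_val (s : ℝ) (hs : s ≠ 0) (v : ℂ) : aeval (⟨1 / 2, s⟩ : ℂ) (lin s v) = v := by
  unfold lin
  simp only [map_add, map_mul, aeval_X, aeval_C, Complex.coe_algebraMap]
  apply Complex.ext
  · simp
    ring
  · simp
    field_simp

private lemma lin_deg (s : ℝ) (v : ℂ) : (lin s v).natDegree ≤ 1 := by
  unfold lin
  compute_degree

private lemma t_le (z : ℂ) (hz : ‖z‖ = 1) : ‖z - z ^ 2‖ ≤ 2 := by
  calc ‖z - z ^ 2‖ ≤ ‖z‖ + ‖z ^ 2‖ := norm_sub_le _ _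
    _ = 2 := by rw [norm_pow, hz]; norm_num

private lemma lin_le (s : ℝ) (hs : 0 < s) (v : ℂ) (z : ℂ) (hz : ‖z‖ = 1) :
    ‖ev (lin s v) z‖ ≤ (1 + 3 / s) * ‖v‖ := by
  have h1 := t_le z hz
  have h2 : ev (lin s v) z = ((v.re - v.im / s / 2 : ℝ) : ℂ) + ((v.im / s : ℝ) : ℂ) * (z - z ^ 2) := by
    unfold ev lin
    simp only [map_add, map_mul, aeval_X, aeval_C, Complex.coe_algebraMap]
  have h3 : |v.re| ≤ ‖v‖ := Complex.abs_re_le_norm v
  have h4 : |v.im| ≤ ‖v‖ := Complex.abs_im_le_norm v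
  have h5 : |v.im / s| ≤ ‖v‖ / s := by
    rw [abs_div, abs_of_pos hs]
    exact div_le_div_of_nonneg_right h4 hs.le
  have h6 : |v.im / s / 2| ≤ ‖v‖ / s / 2 := by
    rw [abs_div, abs_of_pos (by norm_num : (0 : ℝ) < 2)]
    exact div_le_div_of_nonneg_right h5 (by norm_num)
  rw [h2]
  have h7 : ‖((v.re - v.im / s / 2 : ℝ) : ℂ)‖ ≤ ‖v‖ + ‖v‖ / s / 2 := by
    rw [Complex.norm_real, Real.norm_eq_abs]
    exact (abs_sub _ _).trans (add_le_add h3 h6)
  have h8 : ‖((v.im / s : ℝ) : ℂ) * (z - z ^ 2)‖ ≤ ‖v‖ / s * 2 := by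
    rw [norm_mul, Complex.norm_real, Real.norm_eq_abs]
    exact mul_le_mul h5 h1 (norm_nonneg _) (by positivity)
  have h9 : 0 ≤ ‖v‖ / s := by positivity
  calc _ ≤ ‖v‖ + ‖v‖ / s / 2 + ‖v‖ / s * 2 := (norm_add_le _ _).trans (add_le_add h7 h8)
    _ ≤ ‖v‖ + 3 * (‖v‖ / s) := by linarith
    _ = (1 + 3 / s) * ‖v‖ := by ring

private lemma qq_le (y : ℝ) (hy0 : 0 ≤ y) (hy : y ≤ 3) (z : ℂ) (hz : ‖z‖ = 1) :
    ‖ev (qq y) z‖ ≤ 9 := by
  have h1 := t_le z hz
  have h2 : ev (qq y) z = (z - z ^ 2) ^ 2 - (z - z ^ 2) + (y : ℂ) := by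
    unfold ev qq
    simp only [map_add, map_sub, map_pow, aeval_X, aeval_C, Complex.coe_algebraMap]
  rw [h2]
  have h3 : ‖(y : ℂ)‖ ≤ 3 := by
    rw [Complex.norm_real, Real.norm_eq_abs, abs_of_nonneg hy0]
    exact hy
  have h4 : ‖(z - z ^ 2) ^ 2‖ ≤ 4 := by
    rw [norm_pow]
    nlinarith [norm_nonneg (z - z ^ 2)]
  calc _ ≤ ‖(z - z ^ 2) ^ 2‖ + ‖z - z ^ 2‖ + ‖(y : ℂ)‖ :=
        (norm_add_le _ _).trans (add_le_add (norm_sub_le _ _) le_rfl)
    _ ≤ 9 := by linarith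

private lemma interp : ∃ K : ℝ, 0 < K ∧ ∀ v1 v3 : ℂ, ∃ h : ℝ[X], h.natDegree ≤ 3 ∧
    aeval b1 h = v1 ∧ aeval b3 h = v3 ∧ ∀ z, ‖z‖ = 1 → ‖ev h z‖ ≤ K * (‖v1‖ + ‖v3‖) := by
  have hd : 0 < y3 - y1 := by linarith [y1_hi, y3_lo]
  set s1 := Real.sqrt (y1 - 1 / 4) with hs1
  set s3 := Real.sqrt (y3 - 1 / 4) with hs3
  have p1 : 0 < s1 := s1pos
  have p3 : 0 < s3 := s3pos
  refine ⟨(y3 - y1)⁻¹ * (9 * ((1 + 3 / s1) + (1 + 3 / s3))), by positivity, ?_⟩
  intro v1 v3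
  refine ⟨C (y3 - y1)⁻¹ * (lin s1 v1 * qq y3 - lin s3 v3 * qq y1), ?_, ?_, ?_, ?_⟩
  · refine (natDegree_C_mul_le _ _).trans ((natDegree_sub_le _ _).trans (max_le ?_ ?_))
    · refine natDegree_mul_le.trans ?_
      rw [qq_deg]
      have := lin_deg s1 v1
      omega
    · refine natDegree_mul_le.trans ?_
      rw [qq_deg]
      have := lin_deg s3 v3
      omega
  · have e1 : aeval b1 (lin s1 v1) = v1 := lin_val s1 p1.ne' v1
    have hne : ((y3 - y1 : ℝ) : ℂ) ≠ 0 := by exact_mod_cast hd.ne'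
    rw [map_mul, map_sub, map_mul, map_mul, e1, qq_b1, qq_b1, aeval_C, Complex.coe_algebraMap,
      sub_self, Complex.ofReal_zero, mul_zero, sub_zero, Complex.ofReal_inv]
    field_simp
  · have e3 : aeval b3 (lin s3 v3) = v3 := lin_val s3 p3.ne' v3
    have hne : ((y3 - y1 : ℝ) : ℂ) ≠ 0 := by exact_mod_cast hd.ne'
    rw [map_mul, map_sub, map_mul, map_mul, e3, qq_b3, qq_b3, aeval_C, Complex.coe_algebraMap,
      sub_self, Complex.ofReal_zero, mul_zero, zero_sub, Complex.ofReal_inv]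
    have h5 : ((y1 - y3 : ℝ) : ℂ) = -((y3 - y1 : ℝ) : ℂ) := by push_cast; ring
    rw [h5]
    field_simp
  · intro z hz
    have a1 := lin_le s1 p1 v1 z hz
    have a3 := lin_le s3 p3 v3 z hz
    have c1 := qq_le y1 (by linarith [y1_lo]) (by linarith [y1_hi]) z hz
    have c3 := qq_le y3 (by linarith [y3_lo]) y3_hi.le z hz
    have e : ev (C (y3 - y1)⁻¹ * (lin s1 v1 * qq y3 - lin s3 v3 * qq y1)) z =
        (((y3 - y1)⁻¹ : ℝ) : ℂ) * (ev (lin s1 v1) z * ev (qq y3) z -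
          ev (lin s3 v3) z * ev (qq y1) z) := by
      unfold ev
      simp only [map_mul, map_sub, aeval_C, Complex.coe_algebraMap]
    rw [e, norm_mul, Complex.norm_real, Real.norm_eq_abs, abs_of_pos (inv_pos.2 hd), mul_assoc]
    refine mul_le_mul_of_nonneg_left ?_ (inv_pos.2 hd).le
    have m1 : ‖ev (lin s1 v1) z * ev (qq y3) z‖ ≤ (1 + 3 / s1) * ‖v1‖ * 9 := by
      rw [norm_mul]
      exact mul_le_mul a1 c3 (norm_nonneg _) (by positivity)
    have m3 : ‖ev (lin s3 v3) z * ev (qq y1) z‖ ≤ (1 + 3 / s3) * ‖v3‖ * 9 := by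
      rw [norm_mul]
      exact mul_le_mul a3 c1 (norm_nonneg _) (by positivity)
    have n1 : 0 ≤ (1 + 3 / s1) * ‖v3‖ := by positivity
    have n3 : 0 ≤ (1 + 3 / s3) * ‖v1‖ := by positivity
    calc _ ≤ (1 + 3 / s1) * ‖v1‖ * 9 + (1 + 3 / s3) * ‖v3‖ * 9 :=
          (norm_sub_le _ _).trans (add_le_add m1 m3)
      _ ≤ 9 * ((1 + 3 / s1) + (1 + 3 / s3)) * (‖v1‖ + ‖v3‖) := by nlinarith

/-! ### rounding -/

private lemma b1_le : ‖b1‖ ≤ 2 := by
  have h := b1norm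
  have := y1_hi
  nlinarith [norm_nonneg b1]

private lemma b3_le : ‖b3‖ ≤ 2 := by
  have h := b3norm
  have := y3_hi
  nlinarith [norm_nonneg b3]

private lemma round_poly (h : ℝ[X]) (hh : h.natDegree ≤ 3) : ∃ f : ℤ[X], f.natDegree ≤ 3 ∧
    ∀ b : ℂ, ‖b‖ ≤ 2 → ‖aeval b h - aeval b f‖ ≤ 8 := by
  refine ⟨∑ i ∈ Finset.range 4, C (round (h.coeff i)) * X ^ i, ?_, ?_⟩
  · refine natDegree_sum_le_of_forall_le _ _ fun i hi => ?_
    refine (natDegree_C_mul_X_pow_le _ _).trans ?_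
    have := Finset.mem_range.1 hi
    omega
  · intro b hb
    have h1 : aeval b h = ∑ i ∈ Finset.range 4, ((h.coeff i : ℝ) : ℂ) * b ^ i := by
      rw [aeval_eq_sum_range' (lt_of_le_of_lt hh (by norm_num : 3 < 4))]
      refine Finset.sum_congr rfl fun i _ => ?_
      rw [Algebra.smul_def, Complex.coe_algebraMap]
    have h2 : aeval b (∑ i ∈ Finset.range 4, C (round (h.coeff i)) * X ^ i : ℤ[X]) =
        ∑ i ∈ Finset.range 4, ((round (h.coeff i) : ℤ) : ℂ) * b ^ i := by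
      rw [map_sum]
      refine Finset.sum_congr rfl fun i _ => ?_
      rw [map_mul, map_pow, aeval_X, aeval_C]
      simp
    rw [h1, h2, ← Finset.sum_sub_distrib]
    have h3 : ∀ i ∈ Finset.range 4, ‖((h.coeff i : ℝ) : ℂ) * b ^ i -
        ((round (h.coeff i) : ℤ) : ℂ) * b ^ i‖ ≤ 1 / 2 * 2 ^ i := by
      intro i _
      rw [← sub_mul, norm_mul, norm_pow]
      refine mul_le_mul ?_ (pow_le_pow_left₀ (norm_nonneg _) hb _) (by positivity) (by norm_num)
      have h4 : ((h.coeff i : ℝ) : ℂ) - ((round (h.coeff i) : ℤ) : ℂ) =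
          ((h.coeff i - (round (h.coeff i) : ℤ) : ℝ) : ℂ) := by push_cast; ring
      rw [h4, Complex.norm_real, Real.norm_eq_abs]
      exact abs_sub_round _
    refine (norm_sum_le _ _).trans ((Finset.sum_le_sum h3).trans ?_)
    simp only [Finset.sum_range_succ, Finset.sum_range_zero]
    norm_num

/-! ### units -/

private lemma aeval_ri (b : ℂ) (f : ℤ[X]) : aeval b (ri f) = aeval b f := by
  unfold ri
  have : (Int.castRingHom ℝ) = algebraMap ℤ ℝ := rfl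
  rw [this, aeval_map_algebraMap]

private lemma N10_b1 : aeval b1 N10 = 0 := by
  rw [← aeval_ri, N10_eq, map_mul, qq_b1, sub_self, Complex.ofReal_zero, zero_mul]

private lemma N10_b3 : aeval b3 N10 = 0 := by
  rw [← aeval_ri, N10_eq, map_mul, qq_b3, qq_b3, sub_self, Complex.ofReal_zero, mul_zero]

private lemma N10_monic : N10.Monic := by
  unfold N10
  monicity!

private lemma N10_deg : N10.natDegree = 4 := by
  unfold N10
  compute_degree!

private lemma b3_ne : b3 ≠ 0 := by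
  intro h
  have h1 := b3norm
  rw [h] at h1
  have := y3_lo
  simp at h1
  linarith

private lemma b1_ne : b1 ≠ 0 := by
  intro h
  have h1 := b1norm
  rw [h] at h1
  have := y1_lo
  simp at h1
  linarith

private lemma J_val (b : ℂ) (h : aeval b N10 = 0) :
    aeval b (-(X ^ 3 - 2 * X ^ 2 + 4 * X - 3) : ℤ[X]) = b⁻¹ := by
  have h1 : b ^ 4 - 2 * b ^ 3 + 4 * b ^ 2 - 3 * b + 1 = 0 := by
    have h2 := h
    unfold N10 at h2
    simp only [map_add, map_sub, map_mul, map_pow, aeval_X, map_ofNat, map_one] at h2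
    exact h2
  have h3 : aeval b (-(X ^ 3 - 2 * X ^ 2 + 4 * X - 3) : ℤ[X]) =
      -(b ^ 3 - 2 * b ^ 2 + 4 * b - 3) := by
    simp only [map_neg, map_add, map_sub, map_mul, map_pow, aeval_X, map_ofNat]
  rw [h3]
  refine eq_inv_of_mul_eq_one_left ?_
  linear_combination -h1

private lemma units (e : ℤ) : ∃ U : ℤ[X], aeval b1 U = b1 ^ e ∧ aeval b3 U = b3 ^ e := by
  rcases Int.le_total 0 e with h | h
  · obtain ⟨n, rfl⟩ := Int.eq_ofNat_of_zero_le h
    exact ⟨X ^ n, by simp, by simp⟩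
  · obtain ⟨n, hn⟩ := Int.eq_ofNat_of_zero_le (Int.neg_nonneg.2 h)
    have he : e = -(n : ℤ) := by omega
    refine ⟨(-(X ^ 3 - 2 * X ^ 2 + 4 * X - 3)) ^ n, ?_, ?_⟩
    · rw [map_pow, J_val b1 N10_b1, he, zpow_neg, zpow_natCast, inv_pow]
    · rw [map_pow, J_val b3 N10_b3, he, zpow_neg, zpow_natCast, inv_pow]

private lemma nn1 : ‖b1‖ * ‖b3‖ = 1 := by
  have h : (‖b1‖ * ‖b3‖) ^ 2 = 1 := by rw [mul_pow, b1norm, b3norm, y_mul]
  have h0 : 0 ≤ ‖b1‖ * ‖b3‖ := by positivity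
  nlinarith

private lemma n3_gt : 1 < ‖b3‖ := by
  have h := b3norm
  have := y3_lo
  nlinarith [norm_nonneg b3]

private lemma balance (γ1 γ3 : ℝ) (h3 : 0 < γ3) (h : 1 ≤ γ1 * γ3) :
    ∃ e : ℤ, ‖b1‖ ^ e ≤ 2 * γ1 ∧ ‖b3‖ ^ e ≤ γ3 := by
  obtain ⟨e, he1, he2⟩ := exists_mem_Ico_zpow h3 n3_gt
  refine ⟨e, ?_, he1⟩
  have hr0 : 0 < ‖b3‖ := by linarith [n3_gt]
  have h1 : ‖b1‖ = ‖b3‖⁻¹ := eq_inv_of_mul_eq_one_left nn1
  have h4 : 0 < ‖b3‖ ^ e := zpow_pos hr0 e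
  rw [zpow_add_one₀ hr0.ne'] at he2
  rw [h1, inv_zpow, inv_eq_one_div, div_le_iff₀ h4]
  have h5 := b3_le
  have h6 : 0 < γ1 := by
    by_contra hc
    push Not at hc
    nlinarith
  calc (1 : ℝ) ≤ γ1 * γ3 := h
    _ ≤ γ1 * (‖b3‖ ^ e * ‖b3‖) := mul_le_mul_of_nonneg_left he2.le h6.le
    _ ≤ γ1 * (‖b3‖ ^ e * 2) :=
        mul_le_mul_of_nonneg_left (mul_le_mul_of_nonneg_left h5 h4.le) h6.le
    _ = 2 * γ1 * ‖b3‖ ^ e := by ring

/-- module RES -/
theorem RES : S_RES := by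
  intro G hG
  obtain ⟨K, hK, hint⟩ := interp
  refine ⟨K * 32, by positivity, ?_⟩
  intro w g
  set g1 : ℝ := ‖aeval b1 G‖ with hg1
  set g3 : ℝ := ‖aeval b3 G‖ with hg3
  have hg10 : 0 ≤ g1 := norm_nonneg _
  have hg30 : 0 ≤ g3 := norm_nonneg _
  have hp1 : 0 < g1 := by
    rcases hg10.lt_or_eq with h | h
    · exact h
    · rw [← h, zero_mul] at hG
      linarith
  have hp3 : 0 < g3 := by
    rcases hg30.lt_or_eq with h | h
    · exact h
    · rw [← h, mul_zero] at hG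
      linarith
  have hG1 : aeval b1 G ≠ 0 := norm_pos_iff.1 hp1
  have hG3 : aeval b3 G ≠ 0 := norm_pos_iff.1 hp3
  obtain ⟨e, he1, he3⟩ := balance (g1 ^ w) (g3 ^ w) (by positivity) (by
    rw [← mul_pow]
    exact one_le_pow₀ hG)
  obtain ⟨U, hU1, hU3⟩ := units e
  obtain ⟨h', hd', hv1', hv3', -⟩ := hint (aeval b1 g / b1 ^ e) (aeval b3 g / b3 ^ e)
  obtain ⟨f', hfd', hf'⟩ := round_poly h' hd'
  have hbe1 : b1 ^ e ≠ 0 := zpow_ne_zero _ b1_ne
  have hbe3 : b3 ^ e ≠ 0 := zpow_ne_zero _ b3_ne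
  set f := (U * f') %ₘ N10 with hf
  have hfdeg : f.natDegree ≤ 3 := by
    have := natDegree_modByMonic_lt (U * f') N10_monic (by
      intro h4
      have h5 := N10_deg
      rw [h4] at h5
      simp at h5)
    rw [N10_deg, ← hf] at this
    omega
  have hfval : ∀ b : ℂ, aeval b N10 = 0 → aeval b f = aeval b U * aeval b f' := by
    intro b hb
    have h1 := congrArg (aeval b) (modByMonic_add_div (U * f') N10)
    rw [map_add, map_mul, hb, zero_mul, add_zero, map_mul] at h1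
    exact h1
  have hdif1 : ‖aeval b1 g - aeval b1 f‖ ≤ 16 * g1 ^ w := by
    have e1 : aeval b1 g - aeval b1 f = b1 ^ e * (aeval b1 h' - aeval b1 f') := by
      rw [hfval b1 N10_b1, hU1, hv1', mul_sub, mul_div_cancel₀ _ hbe1]
    rw [e1, norm_mul, norm_zpow]
    calc ‖b1‖ ^ e * ‖aeval b1 h' - aeval b1 f'‖ ≤ (2 * g1 ^ w) * 8 :=
          mul_le_mul he1 (hf' b1 b1_le) (norm_nonneg _) (by positivity)
      _ = 16 * g1 ^ w := by ring
  have hdif3 : ‖aeval b3 g - aeval b3 f‖ ≤ 16 * g3 ^ w := by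
    have e1 : aeval b3 g - aeval b3 f = b3 ^ e * (aeval b3 h' - aeval b3 f') := by
      rw [hfval b3 N10_b3, hU3, hv3', mul_sub, mul_div_cancel₀ _ hbe3]
    rw [e1, norm_mul, norm_zpow]
    have h0 : 0 < g3 ^ w := by positivity
    calc ‖b3‖ ^ e * ‖aeval b3 h' - aeval b3 f'‖ ≤ g3 ^ w * 8 :=
          mul_le_mul he3 (hf' b3 b3_le) (norm_nonneg _) (by positivity)
      _ ≤ 16 * g3 ^ w := by linarith
  obtain ⟨h, hhd, hh1, hh3, hhb⟩ := hint ((aeval b1 g - aeval b1 f) / (aeval b1 G) ^ w)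
    ((aeval b3 g - aeval b3 f) / (aeval b3 G) ^ w)
  refine ⟨f, G ^ w * h, hfdeg, ?_, ?_, ?_⟩
  · refine natDegree_mul_le.trans (add_le_add ?_ hhd)
    exact natDegree_pow_le
  · apply N10_dvd
    · rw [map_sub, map_sub, aeval_ri, map_mul, map_pow, hh1, mul_div_cancel₀ _ (pow_ne_zero _ hG1),
        sub_self]
    · rw [map_sub, map_sub, aeval_ri, map_mul, map_pow, hh3, mul_div_cancel₀ _ (pow_ne_zero _ hG3),
        sub_self]
  · intro z hz
    have q1 : ‖(aeval b1 g - aeval b1 f) / (aeval b1 G) ^ w‖ ≤ 16 := by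
      rw [norm_div, norm_pow, div_le_iff₀ (by positivity)]
      exact hdif1
    have q3 : ‖(aeval b3 g - aeval b3 f) / (aeval b3 G) ^ w‖ ≤ 16 := by
      rw [norm_div, norm_pow, div_le_iff₀ (by positivity)]
      exact hdif3
    have q : ‖ev h z‖ ≤ K * 32 := by
      refine (hhb z hz).trans (mul_le_mul_of_nonneg_left ?_ hK.le)
      linarith
    rw [ev_mul, ev_pow, norm_mul, norm_pow, mul_comm]
    exact mul_le_mul_of_nonneg_right q (by positivity)

end Pool.H2.ZU
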